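import Pool.Agent.VTP.StmtsA

/-! # VTP, row PR2 (helper9): two parallel crossings of opposite signs can be removed. -/

set_option autoImplicit false

namespace Pool.Agent.VTP.H9

open Finset Pool.Agent.ZOL Pool.Agent.VTP

open Classical in
theorem nn_exp (V : Finset ℕ) (σ s : ℕ → ℤ) (i : ℕ → ℕ → Prop) (a b : ℕ) (haV : a ∉ V)
    (hbV : b ∉ V) (hab : a ≠ b) (S' : Finset ℕ) :
    NN (insert a (insert b V)) σ s i S' =
      (if a ∉ S' ∧ ∀ c ∈ S', ¬ i c a then σ a else 0) +
      (if b ∉ S' ∧ ∀ c ∈ S', ¬ i c b then σ b else 0) +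
      (∑ d ∈ V, if d ∉ S' ∧ ∀ c ∈ S', ¬ i c d then σ d else 0) - (∑ c ∈ S', σ c) -
      (s a + s b + ∑ d ∈ V, s d) := by
  unfold NN
  have h1 : a ∉ insert b V := by
    rw [mem_insert]
    rintro (h | h)
    · exact hab h
    · exact haV h
  rw [sum_filter, sum_insert h1, sum_insert hbV, sum_insert h1, sum_insert hbV]
  ring

open Classical in
theorem nn_def (V : Finset ℕ) (σ s : ℕ → ℤ) (i : ℕ → ℕ → Prop) (S' : Finset ℕ) :
    NN V σ s i S' =
      (∑ d ∈ V, if d ∉ S' ∧ ∀ c ∈ S', ¬ i c d then σ d else 0) - (∑ c ∈ S', σ c) -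
      (∑ d ∈ V, s d) := by
  unfold NN
  rw [sum_filter]

/-- PR2 -/
theorem pr2 : Pr2Stmt := by
  classical
  intro R _ q hq V σ s i a b haV hbV hab hsym hirr hpar hσb hsb hs hσ
  have h1 : a ∉ insert b V := by
    rw [mem_insert]
    rintro (h | h)
    · exact hab h
    · exact haV h
  unfold PP
  rw [sum_filter, sum_powerset_insert h1, sum_powerset_insert hbV, sum_powerset_insert hbV,
    sum_filter, ← sum_add_distrib, ← sum_add_distrib, ← sum_add_distrib]
  apply sum_congr rfl
  intro S hS
  have hSV : S ⊆ V := mem_powerset.mp hS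
  have haS : a ∉ S := fun h => haV (hSV h)
  have hbS : b ∉ S := fun h => hbV (hSV h)
  have haS' : a ∉ insert b S := by
    rw [mem_insert]
    rintro (h | h)
    · exact hab h
    · exact haS h
  -- the condition on `a` and on `b`
  have hPb : (∀ c ∈ S, ¬ i b c) ↔ (∀ c ∈ S, ¬ i a c) := by
    constructor
    · intro h c hc hac
      exact h c hc ((hpar c (hSV hc)).mp hac)
    · intro h c hc hac
      exact h c hc ((hpar c (hSV hc)).mpr hac)
  have hflip : ∀ x y, i x y ↔ i y x := fun x y => ⟨hsym x y, hsym y x⟩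
  have hqa : (∀ c ∈ S, ¬ i c a) ↔ (∀ c ∈ S, ¬ i a c) := by
    constructor
    · intro h c hc hac
      exact h c hc (hsym _ _ hac)
    · intro h c hc hac
      exact h c hc (hsym _ _ hac)
  have hqb : (∀ c ∈ S, ¬ i c b) ↔ (∀ c ∈ S, ¬ i a c) := by
    rw [← hPb]
    constructor
    · intro h c hc hac
      exact h c hc (hsym _ _ hac)
    · intro h c hc hac
      exact h c hc (hsym _ _ hac)
  by_cases hNI : NI i S
  swap
  · have hn1 : ¬ NI i (insert b S) := fun h =>
      hNI (fun c hc d hd => h c (mem_insert_of_mem hc) d (mem_insert_of_mem hd))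
    have hn2 : ¬ NI i (insert a S) := fun h =>
      hNI (fun c hc d hd => h c (mem_insert_of_mem hc) d (mem_insert_of_mem hd))
    have hn3 : ¬ NI i (insert a (insert b S)) := fun h =>
      hn1 (fun c hc d hd => h c (mem_insert_of_mem hc) d (mem_insert_of_mem hd))
    simp only [hNI, hn1, hn2, hn3, if_false, add_zero]
  -- the term of `S`
  have hN0 : NN (insert a (insert b V)) σ s i S = NN V σ s i S := by
    rw [nn_exp V σ s i a b haV hbV hab, nn_def V σ s i, hσb, hsb]
    by_cases hP : ∀ c ∈ S, ¬ i a c
    · rw [if_pos ⟨haS, hqa.mpr hP⟩, if_pos ⟨hbS, hqb.mpr hP⟩]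
      ring
    · rw [if_neg (fun h => hP (hqa.mp h.2)), if_neg (fun h => hP (hqb.mp h.2))]
      ring
  rw [if_pos hNI, if_pos hNI, hN0]
  by_cases hP : ∀ c ∈ S, ¬ i a c
  swap
  · have hn1 : ¬ NI i (insert b S) := fun h =>
      hP (hPb.mp (fun c hc => h b (mem_insert_self b S) c (mem_insert_of_mem hc)))
    have hn2 : ¬ NI i (insert a S) := fun h =>
      hP (fun c hc => h a (mem_insert_self a S) c (mem_insert_of_mem hc))
    have hn3 : ¬ NI i (insert a (insert b S)) := fun h =>
      hn1 (fun c hc d hd => h c (mem_insert_of_mem hc) d (mem_insert_of_mem hd))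
    rw [if_neg hn1, if_neg hn2, if_neg hn3]
    ring
  -- the case `s a = σ a`
  rcases hs with hs | hs
  · have hxa : xx q σ s a = 0 := by unfold xx; rw [if_pos hs]
    have hxb : xx q σ s b = 0 := by
      unfold xx
      rw [if_pos]
      rw [hsb, hσb, hs]
    rw [prod_insert hbS, prod_insert haS, prod_insert haS', hxa, hxb]
    simp
  -- the case `s a = - σ a`
  have hne : ¬ s a = σ a := by
    rw [hs]
    rcases hσ with h | h <;> rw [h] <;> decide
  have hneb : ¬ s b = σ b := by
    rw [hsb, hσb, hs]
    rcases hσ with h | h <;> rw [h] <;> decide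
  have hxa : xx q σ s a = 1 - q (σ a) := by unfold xx; rw [if_neg hne]
  have hxb : xx q σ s b = 1 - q (- σ a) := by unfold xx; rw [if_neg hneb, hσb]
  have hqq : q (σ a) * q (- σ a) = 1 := by
    rw [← hq.2, add_neg_cancel, hq.1]
  -- NI
  have hNa : NI i (insert a S) := by
    intro c hc d hd
    rcases mem_insert.mp hc with rfl | hc'
    · rcases mem_insert.mp hd with rfl | hd'
      · exact hirr _
      · exact hP d hd'
    · rcases mem_insert.mp hd with rfl | hd'
      · exact fun h => hP c hc' (hsym _ _ h)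
      · exact hNI c hc' d hd'
  have hNb : NI i (insert b S) := by
    intro c hc d hd
    rcases mem_insert.mp hc with rfl | hc'
    · rcases mem_insert.mp hd with rfl | hd'
      · exact hirr _
      · exact hPb.mpr hP d hd'
    · rcases mem_insert.mp hd with rfl | hd'
      · exact fun h => hPb.mpr hP c hc' (hsym _ _ h)
      · exact hNI c hc' d hd'
  -- the sum over `V`
  have hVa : (∑ d ∈ V, if d ∉ insert a S ∧ ∀ c ∈ insert a S, ¬ i c d then σ d else 0) =
      ∑ d ∈ V, if d ∉ S ∧ (∀ c ∈ S, ¬ i c d) ∧ ¬ i a d then σ d else 0 := by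
    apply sum_congr rfl
    intro d hd
    have hda : d ≠ a := by rintro rfl; exact haV hd
    congr 1
    apply propext
    constructor
    · rintro ⟨h2, h3⟩
      exact ⟨fun h => h2 (mem_insert_of_mem h), fun c hc => h3 c (mem_insert_of_mem hc),
        h3 a (mem_insert_self a S)⟩
    · rintro ⟨h2, h3, h4⟩
      refine ⟨fun h => ?_, fun c hc => ?_⟩
      · rcases mem_insert.mp h with h5 | h5
        · exact hda h5
        · exact h2 h5
      · rcases mem_insert.mp hc with rfl | hc'
        · exact h4
        · exact h3 c hc'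
  have hVb : (∑ d ∈ V, if d ∉ insert b S ∧ ∀ c ∈ insert b S, ¬ i c d then σ d else 0) =
      ∑ d ∈ V, if d ∉ S ∧ (∀ c ∈ S, ¬ i c d) ∧ ¬ i a d then σ d else 0 := by
    apply sum_congr rfl
    intro d hd
    have hda : d ≠ b := by rintro rfl; exact hbV hd
    congr 1
    apply propext
    constructor
    · rintro ⟨h2, h3⟩
      exact ⟨fun h => h2 (mem_insert_of_mem h), fun c hc => h3 c (mem_insert_of_mem hc),
        fun h => h3 b (mem_insert_self b S) ((hpar d hd).mp h)⟩
    · rintro ⟨h2, h3, h4⟩
      refine ⟨fun h => ?_, fun c hc => ?_⟩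
      · rcases mem_insert.mp h with h5 | h5
        · exact hda h5
        · exact h2 h5
      · rcases mem_insert.mp hc with rfl | hc'
        · exact fun h => h4 ((hpar d hd).mpr h)
        · exact h3 c hc'
  have hVc : (∑ d ∈ V, if d ∉ insert a (insert b S) ∧ ∀ c ∈ insert a (insert b S), ¬ i c d
      then σ d else 0) =
      ∑ d ∈ V, if d ∉ S ∧ (∀ c ∈ S, ¬ i c d) ∧ ¬ i a d then σ d else 0 := by
    apply sum_congr rfl
    intro d hd
    have hda : d ≠ b := by rintro rfl; exact hbV hd
    have hda' : d ≠ a := by rintro rfl; exact haV hd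
    congr 1
    apply propext
    constructor
    · rintro ⟨h2, h3⟩
      exact ⟨fun h => h2 (mem_insert_of_mem (mem_insert_of_mem h)),
        fun c hc => h3 c (mem_insert_of_mem (mem_insert_of_mem hc)),
        h3 a (mem_insert_self a _)⟩
    · rintro ⟨h2, h3, h4⟩
      refine ⟨fun h => ?_, fun c hc => ?_⟩
      · rcases mem_insert.mp h with h5 | h5
        · exact hda' h5
        · rcases mem_insert.mp h5 with h5 | h5
          · exact hda h5
          · exact h2 h5
      · rcases mem_insert.mp hc with rfl | hc'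
        · exact h4
        · rcases mem_insert.mp hc' with rfl | hc'
          · exact fun h => h4 ((hpar d hd).mpr h)
          · exact h3 c hc'
  have hEa := nn_exp V σ s i a b haV hbV hab (insert a S)
  have hEb := nn_exp V σ s i a b haV hbV hab (insert b S)
  have hEc := nn_exp V σ s i a b haV hbV hab (insert a (insert b S))
  rw [hVa, sum_insert haS, hsb, if_neg (fun h => h.1 (mem_insert_self a S))] at hEa
  rw [hVb, sum_insert hbS, hsb, if_neg (fun h : (b ∉ insert b S ∧ _) =>
    h.1 (mem_insert_self b S))] at hEb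
  rw [hVc, sum_insert haS', sum_insert hbS, hsb,
    if_neg (fun h => h.1 (mem_insert_self a (insert b S))),
    if_neg (fun h : (b ∉ insert a (insert b S) ∧ _) =>
      h.1 (mem_insert_of_mem (mem_insert_self b S)))] at hEc
  rw [if_pos hNa, if_pos hNb, prod_insert haS', prod_insert hbS, prod_insert haS, hxa, hxb]
  generalize (∑ d ∈ V, if d ∉ S ∧ (∀ c ∈ S, ¬ i c d) ∧ ¬ i a d then σ d else 0) = W at *
  generalize (∏ c ∈ S, xx q σ s c) = PD at *
  by_cases hiab : i a b
  · -- interlaced
    have hn3 : ¬ NI i (insert a (insert b S)) := fun h =>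
      h a (mem_insert_self a _) b (mem_insert_of_mem (mem_insert_self b S)) hiab
    rw [if_neg hn3]
    rw [if_neg (fun h : (b ∉ insert a S ∧ ∀ c ∈ insert a S, ¬ i c b) =>
      h.2 a (mem_insert_self a S) hiab)] at hEa
    rw [if_neg (fun h : (a ∉ insert b S ∧ ∀ c ∈ insert b S, ¬ i c a) =>
      h.2 b (mem_insert_self b S) (hsym _ _ hiab))] at hEb
    rw [hσb] at hEb
    have e1 : NN (insert a (insert b V)) σ s i (insert b S) / 2 =
        NN (insert a (insert b V)) σ s i (insert a S) / 2 + σ a := by
      rw [hEa, hEb]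
      omega
    rw [e1, hq.2]
    linear_combination (-(PD * q (NN (insert a (insert b V)) σ s i (insert a S) / 2))) * hqq
  · have hn3 : NI i (insert a (insert b S)) := by
      intro c hc d hd
      rcases mem_insert.mp hc with rfl | hc'
      · rcases mem_insert.mp hd with rfl | hd'
        · exact hirr _
        · rcases mem_insert.mp hd' with rfl | hd'
          · exact hiab
          · exact hP d hd'
      · rcases mem_insert.mp hd with rfl | hd'
        · rcases mem_insert.mp hc' with rfl | hc'
          · exact fun h => hiab (hsym _ _ h)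
          · exact fun h => hP c hc' (hsym _ _ h)
        · exact hNb c hc' d hd'
    rw [if_pos hn3]
    have pa : (b ∉ insert a S ∧ ∀ c ∈ insert a S, ¬ i c b) := by
      refine ⟨?_, ?_⟩
      · rw [mem_insert]
        rintro (h | h)
        · exact hab h.symm
        · exact hbS h
      · intro c hc
        rcases mem_insert.mp hc with rfl | hc'
        · exact hiab
        · exact hqb.mpr hP c hc'
    have pb : (a ∉ insert b S ∧ ∀ c ∈ insert b S, ¬ i c a) := by
      refine ⟨haS', ?_⟩
      intro c hc
      rcases mem_insert.mp hc with rfl | hc'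
      · exact fun h => hiab (hsym _ _ h)
      · exact hqa.mpr hP c hc'
    rw [if_pos pa, hσb] at hEa
    rw [if_pos pb, hσb] at hEb
    rw [hσb] at hEc
    have e1 : NN (insert a (insert b V)) σ s i (insert b S) / 2 =
        NN (insert a (insert b V)) σ s i (insert a (insert b S)) / 2 + σ a := by
      rw [hEc, hEb]
      omega
    have e2 : NN (insert a (insert b V)) σ s i (insert a S) / 2 =
        NN (insert a (insert b V)) σ s i (insert a (insert b S)) / 2 + - σ a := by
      rw [hEa, hEc]
      omega
    rw [e1, e2, hq.2, hq.2]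
    generalize q (NN (insert a (insert b V)) σ s i (insert a (insert b S)) / 2) = Q at *
    linear_combination (-(PD * Q)) * hqq

end Pool.Agent.VTP.H9
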